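import Pool.Agent.H54.PM.Targets

set_option autoImplicit false

open Pool.Agent.H54.PM

namespace Pool.Agent.H61.PMF

/-! ### Alternating walks of two involutions -/

section Abs

variable {Z : Type} (s t : Z → Z) (g : Z)

/-- the alternating walk -/
def walk : ℕ → Z
  | 0 => g
  | n + 1 => if Even n then s (walk n) else t (walk n)

lemma walk_succ (n : ℕ) :
    walk s t g (n + 1) = if Even n then s (walk s t g n) else t (walk s t g n) := rfl

lemma walk_even {n : ℕ} (h : Even n) : walk s t g (n + 1) = s (walk s t g n) := by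
  rw [walk_succ, if_pos h]

lemma walk_odd {n : ℕ} (h : ¬ Even n) : walk s t g (n + 1) = t (walk s t g n) := by
  rw [walk_succ, if_neg h]

lemma walk_two (k : ℕ) : walk s t g (2 * k) = (t ∘ s)^[k] g := by
  induction k with
  | zero => rfl
  | succ k ih =>
    rw [Function.iterate_succ_apply', ← ih, show 2 * (k + 1) = (2 * k + 1) + 1 by ring,
      walk_odd s t g (by simp), walk_even s t g (by simp)]
    rfl

variable {s t g}

lemma walk_shift (hs : ∀ x, s (s x) = x) (ht : ∀ x, t (t x) = x) :
    ∀ a b : ℕ, (Even a ↔ Even (a + b)) → walk s t g a = walk s t g (a + b) →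
      walk s t g b = g := by
  intro a
  induction a with
  | zero => intro b _ h; rw [zero_add] at h; exact h.symm
  | succ a ih =>
    intro b hab h
    have hab' : Even a ↔ Even (a + b) := by
      rw [show a + 1 + b = (a + b) + 1 by ring, Nat.even_add_one, Nat.even_add_one] at hab
      tauto
    refine ih b hab' ?_
    rw [show a + 1 + b = (a + b) + 1 by ring, walk_succ, walk_succ] at h
    by_cases hE : Even a
    · rw [if_pos hE, if_pos (hab'.1 hE)] at h
      have := congrArg s h
      rwa [hs, hs] at this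
    · rw [if_neg hE, if_neg (fun h' => hE (hab'.2 h'))] at h
      have := congrArg t h
      rwa [ht, ht] at this

lemma walk_opp (hs : ∀ x, s (s x) = x) (ht : ∀ x, t (t x) = x) (hs0 : ∀ x, s x ≠ x)
    (ht0 : ∀ x, t x ≠ x) :
    ∀ k a : ℕ, walk s t g a ≠ walk s t g (a + (2 * k + 1)) := by
  intro k
  induction k with
  | zero =>
    intro a h
    rw [show a + (2 * 0 + 1) = a + 1 by ring, walk_succ] at h
    by_cases hE : Even a
    · rw [if_pos hE] at h; exact hs0 _ h.symm
    · rw [if_neg hE] at h; exact ht0 _ h.symm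
  | succ k ih =>
    intro a h
    refine ih (a + 1) ?_
    rw [show a + (2 * (k + 1) + 1) = (a + 1 + (2 * k + 1)) + 1 by ring, walk_succ s t g
      (a + 1 + (2 * k + 1))] at h
    rw [walk_succ]
    by_cases hE : Even a
    · have h2 : Even (a + 1 + (2 * k + 1)) := by
        rw [show a + 1 + (2 * k + 1) = a + 2 * (k + 1) by ring]
        exact hE.add (even_two_mul _)
      rw [if_pos h2] at h
      rw [if_pos hE, h, hs]
    · have h2 : ¬ Even (a + 1 + (2 * k + 1)) := by
        rw [show a + 1 + (2 * k + 1) = a + 2 * (k + 1) by ring]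
        intro h3
        exact hE ((Nat.even_add.1 h3).2 (even_two_mul _))
      rw [if_neg h2] at h
      rw [if_neg hE, h, ht]

lemma walk_per (d : ℕ) (hd : Even d) (h : walk s t g d = g) :
    Function.Periodic (walk s t g) d := by
  intro n
  induction n with
  | zero => rw [zero_add, h]; rfl
  | succ n ih =>
    rw [show n + 1 + d = (n + d) + 1 by ring, walk_succ, walk_succ, ih]
    have : Even (n + d) ↔ Even n := by
      rw [Nat.even_add]; tauto
    simp only [this]

theorem exists_walk [Finite Z] (hs : ∀ x, s (s x) = x) (ht : ∀ x, t (t x) = x)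
    (hs0 : ∀ x, s x ≠ x) (ht0 : ∀ x, t x ≠ x) (hst : ∀ x, s x ≠ t x) :
    ∃ d : ℕ, 4 ≤ d ∧ Even d ∧ walk s t g d = g ∧
      (∀ a b, a < d → b < d → walk s t g a = walk s t g b → a = b) := by
  have hinj : Function.Injective (t ∘ s) := by
    intro x y h
    have h1 := congrArg t h
    simp only [Function.comp_apply, ht] at h1
    have h2 := congrArg s h1
    rwa [hs, hs] at h2
  set r := Function.minimalPeriod (t ∘ s) g with hr
  have hper : g ∈ Function.periodicPts (t ∘ s) := hinj.mem_periodicPts g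
  have hr0 : 0 < r := Function.minimalPeriod_pos_of_mem_periodicPts hper
  have hrg : (t ∘ s)^[r] g = g := Function.isPeriodicPt_minimalPeriod _ _
  have hr1 : r ≠ 1 := by
    intro h1
    rw [h1] at hrg
    simp only [Function.iterate_one, Function.comp_apply] at hrg
    have := congrArg t hrg
    rw [ht] at this
    exact hst g this
  have hmin : ∀ k, 0 < k → k < r → walk s t g (2 * k) ≠ g := by
    intro k hk0 hkr h
    rw [walk_two] at h
    have : Function.IsPeriodicPt (t ∘ s) k g := h
    have := this.minimalPeriod_le hk0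
    omega
  have key : ∀ a c, a + c < 2 * r → 0 < c → walk s t g a ≠ walk s t g (a + c) := by
    intro a c hac hc h
    rcases Nat.even_or_odd' c with ⟨k, hk | hk⟩
    · subst hk
      have h1 : walk s t g (2 * k) = g := by
        refine walk_shift hs ht a (2 * k) ?_ h
        rw [Nat.even_add]
        simp
      exact hmin k (by omega) (by omega) h1
    · subst hk
      exact walk_opp hs ht hs0 ht0 k a h
  refine ⟨2 * r, by omega, even_two_mul r, by rw [walk_two, hrg], ?_⟩
  intro a b ha hb h
  rcases lt_trichotomy a b with hab | hab | hab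
  · exact absurd (by rwa [show a + (b - a) = b by omega]) (key a (b - a) (by omega) (by omega))
  · exact hab
  · exact absurd (by rw [show b + (a - b) = a by omega]; exact h.symm)
      (key b (a - b) (by omega) (by omega))

end Abs

/-! ### The words in a plane -/

lemma one_ne {p : ℕ} [NeZero p] (hp : 3 ≤ p) (i : Fin p) : i ≠ i + 1 := by
  intro h
  have h1 : (1 : Fin p) = 0 := by
    have := congrArg (fun x => x - i) h
    simp only [sub_self, add_sub_cancel_left] at this
    exact this.symm
  have h2 := congrArg Fin.val h1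
  rw [Fin.val_one', Fin.val_zero] at h2
  rw [Nat.mod_eq_of_lt (by omega)] at h2
  omega

lemma ag_symm {p : ℕ} {i : Fin p} {g h : Wd p} (a : ag i g h) : ag i h g :=
  fun t ht => (a t ht).symm

lemma ag_eq {p : ℕ} [NeZero p] (hp : 3 ≤ p) {i : Fin p} {g h : Wd p} (a : ag i g h)
    (b : ag (i + 1) g h) : h = g := by
  funext t
  by_cases ht : t = i
  · subst ht
    exact (b t (one_ne hp t)).symm
  · exact (a t ht).symm

/-- the words in the plane through `g` -/
abbrev ZZ {p : ℕ} [NeZero p] (W : Finset (Wd p)) (i : Fin p) (g : Wd p) : Type :=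
  {k : Wd p // k ∈ W ∧ ag2 i g k}

/-- partners -/
lemma partner {p : ℕ} [NeZero p] (W : Finset (Wd p)) (hL : Lin W) (i j : Fin p) (g : Wd p)
    (hj : j = i ∨ j = i + 1) :
    ∃ s : ZZ W i g → ZZ W i g, (∀ x, ag j x.1 (s x).1) ∧ (∀ x, s x ≠ x) ∧
      (∀ x, s (s x) = x) ∧ ∀ x : ZZ W i g, ∀ k ∈ W, ag j x.1 k → k = x.1 ∨ k = (s x).1 := by
  have h0 : ∀ x : ZZ W i g, ∃ y : ZZ W i g, y ≠ x ∧ ag j x.1 y.1 ∧
      ∀ k ∈ W, ag j x.1 k → k = x.1 ∨ k = y.1 := by
    intro x
    obtain ⟨h, hW, hne, ha, hu⟩ := hL j x.1 x.2.1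
    refine ⟨⟨h, hW, ?_⟩, ?_, ha, hu⟩
    · intro t ht ht'
      rw [x.2.2 t ht ht']
      refine ha t ?_
      rcases hj with rfl | rfl
      · exact ht
      · exact ht'
    · intro e
      exact hne (congrArg Subtype.val e)
  choose s h1 h2 h3 using h0
  refine ⟨s, h2, h1, ?_, h3⟩
  intro x
  rcases h3 (s x) x.1 x.2.1 (ag_symm (h2 x)) with e | e
  · exact absurd (Subtype.ext e).symm (h1 x)
  · exact (Subtype.ext e).symm

theorem pf_CYC : T_CYC := by
  intro p _ W hp hG i g hg
  obtain ⟨s, s1, s2, s3, s4⟩ := partner W hG.line i i g (Or.inl rfl)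
  obtain ⟨t, t1, t2, t3, t4⟩ := partner W hG.line i (i + 1) g (Or.inr rfl)
  let g0 : ZZ W i g := ⟨g, hg, fun _ _ _ => rfl⟩
  have hst : ∀ x, s x ≠ t x := by
    intro x e
    have h1 := s1 x
    rw [e] at h1
    exact t2 x (Subtype.ext (ag_eq hp h1 (t1 x)))
  have : Finite (ZZ W i g) := by
    have : Finite {k : Wd p // k ∈ W} := inferInstance
    refine Finite.of_injective (fun x : ZZ W i g => (⟨x.1, x.2.1⟩ : {k : Wd p // k ∈ W})) ?_
    intro x y h
    exact Subtype.ext (Subtype.mk.inj h)
  obtain ⟨d, hd4, hdE, hdg, hinj⟩ := exists_walk (g := g0) s3 t3 s2 t2 hst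
  have : NeZero d := ⟨by omega⟩
  have hper := walk_per (s := s) (t := t) (g := g0) d hdE hdg
  have hmod : ∀ n, walk s t g0 (n % d) = walk s t g0 n := fun n => hper.map_mod_nat n
  have hsucc : ∀ n : Fin d, walk s t g0 (n + 1 : Fin d).val = walk s t g0 (n.val + 1) := by
    intro n
    rw [Fin.val_add, Fin.val_one', Nat.add_mod_mod, hmod]
  -- the range is closed
  have hcs : ∀ n, ∃ m, walk s t g0 m = s (walk s t g0 n) := by
    intro n
    by_cases hE : Even n
    · exact ⟨n + 1, walk_even s t g0 hE⟩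
    · obtain ⟨m, rfl⟩ : ∃ m, n = m + 1 := ⟨n - 1, by
        have : n ≠ 0 := by rintro rfl; exact hE (by simp)
        omega⟩
      have hm : Even m := by
        rw [Nat.even_add_one] at hE
        simpa using hE
      refine ⟨m, ?_⟩
      rw [walk_even s t g0 hm, s3]
  have hct : ∀ n, ∃ m, walk s t g0 m = t (walk s t g0 n) := by
    intro n
    by_cases hE : Even n
    · have h1 : walk s t g0 (n + d) = walk s t g0 n := hper n
      obtain ⟨m, hm⟩ : ∃ m, n + d = m + 1 := ⟨n + d - 1, by omega⟩
      have hmE : ¬ Even m := by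
        intro h
        have : Even (m + 1) := hm ▸ hE.add hdE
        rw [Nat.even_add_one] at this
        exact this h
      refine ⟨m, ?_⟩
      rw [← h1, hm, walk_odd s t g0 hmE, t3]
    · exact ⟨n + 1, walk_odd s t g0 hE⟩
  have hrange : ∀ y : ZZ W i g, ∃ n, walk s t g0 n = y := by
    intro y
    -- a third word
    obtain ⟨f, hf1, hf2⟩ : ∃ f : ZZ W i g, g0 ≠ f ∧ y ≠ f := by
      by_cases hy : y = s g0
      · exact ⟨t g0, (t2 g0).symm, by rw [hy]; exact hst g0⟩
      · exact ⟨s g0, (s2 g0).symm, hy⟩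
    have hc := hG.plane i g f.1 f.2.1 g hg y.1 y.2.1 f.2.2 (fun _ _ _ => rfl) y.2.2
      (fun e => hf1 (Subtype.ext e)) (fun e => hf2 (Subtype.ext e))
    have : ∀ z : Wd p, Relation.ReflTransGen (st W i f.1) g z → ∃ n, (walk s t g0 n).1 = z := by
      intro z hz
      induction hz with
      | refl => exact ⟨0, rfl⟩
      | tail _ hst' ih =>
        obtain ⟨n, hn⟩ := ih
        obtain ⟨hW, _, ha | ha⟩ := hst'
        · rw [← hn] at ha
          rcases s4 _ _ hW ha with e | e
          · exact ⟨n, e.symm⟩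
          · obtain ⟨m, hm⟩ := hcs n
            exact ⟨m, by rw [hm, e]⟩
        · rw [← hn] at ha
          rcases t4 _ _ hW ha with e | e
          · exact ⟨n, e.symm⟩
          · obtain ⟨m, hm⟩ := hct n
            exact ⟨m, by rw [hm, e]⟩
    obtain ⟨n, hn⟩ := this y.1 hc
    exact ⟨n, Subtype.ext hn⟩
  refine ⟨d, inferInstance, fun n => (walk s t g0 n.val).1, hd4, ?_⟩
  refine ⟨hdE, ?_, ?_, ?_, ?_⟩
  · intro a b h
    exact Fin.ext (hinj a.val b.val a.isLt b.isLt (Subtype.ext h))
  · intro k
    constructor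
    · rintro ⟨hk, hk'⟩
      obtain ⟨n, hn⟩ := hrange ⟨k, hk, hk'⟩
      refine ⟨⟨n % d, Nat.mod_lt _ (by omega)⟩, ?_⟩
      show (walk s t g0 (n % d)).1 = k
      rw [hmod, hn]
    · rintro ⟨n, rfl⟩
      exact (walk s t g0 n.val).2
  · intro n hn
    show ag i (walk s t g0 n.val).1 (walk s t g0 (n + 1 : Fin d).val).1
    rw [hsucc, walk_even s t g0 hn]
    exact s1 _
  · intro n hn
    show ag (i + 1) (walk s t g0 n.val).1 (walk s t g0 (n + 1 : Fin d).val).1
    rw [hsucc, walk_odd s t g0 hn]
    exact t1 _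

end Pool.Agent.H61.PMF
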