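import Pool.Agent.H54.PM.Targets

set_option autoImplicit false

open Pool.Agent.H54.PM

namespace Pool.Agent.H61.PMF

open Classical in
lemma prj_lin (n : ℕ) : ∀ (E : Type) [AddCommGroup E] [Module ℝ E] [FiniteDimensional ℝ E]
    (S : Finset (Submodule ℝ E)), Module.finrank ℝ E ≤ n + 5 →
    (∀ V ∈ S, Module.finrank ℝ V ≤ 5) →
    ∃ L : E →ₗ[ℝ] (Fin 5 → ℝ), ∀ V ∈ S, ∀ x ∈ V, L x = 0 → x = 0 := by
  induction n with
  | zero =>
    intro E _ _ _ S hE _
    obtain ⟨f, hf⟩ := (finrank_le_iff_exists_linearMap (R := ℝ) (M := E) (M' := Fin 5 → ℝ)).1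
      (by rw [Module.finrank_fin_fun]; omega)
    exact ⟨f, fun V _ x _ hx => hf (by rw [hx, map_zero])⟩
  | succ n ih =>
    intro E _ _ _ S hE hS
    by_cases h5 : Module.finrank ℝ E ≤ 5
    · obtain ⟨f, hf⟩ := (finrank_le_iff_exists_linearMap (R := ℝ) (M := E) (M' := Fin 5 → ℝ)).1
        (by rw [Module.finrank_fin_fun]; omega)
      exact ⟨f, fun V _ x _ hx => hf (by rw [hx, map_zero])⟩
    · have hS' : ∀ V ∈ insert (⊥ : Submodule ℝ E) S, Module.finrank ℝ V ≤ 5 := by
        intro V hV
        rcases Finset.mem_insert.1 hV with rfl | hV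
        · simp
        · exact hS V hV
      have htop : (⊤ : Submodule ℝ E) ∉ insert (⊥ : Submodule ℝ E) S := by
        intro h
        have := hS' _ h
        rw [finrank_top] at this
        omega
      have hne := Subspace.biUnion_ne_univ_of_top_notMem htop
      obtain ⟨d, hd⟩ := (Set.ne_univ_iff_exists_notMem _).1 hne
      have hd' : ∀ V ∈ insert (⊥ : Submodule ℝ E) S, d ∉ V := by
        intro V hV hdV
        exact hd (Set.mem_biUnion hV hdV)
      have hd0 : d ≠ 0 := by
        rintro rfl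
        exact hd' ⊥ (Finset.mem_insert_self _ _) (Submodule.zero_mem _)
      have hq := (Submodule.span ℝ {d}).finrank_quotient_add_finrank
      rw [finrank_span_singleton hd0] at hq
      obtain ⟨L, hL⟩ := ih (E ⧸ Submodule.span ℝ {d})
        (S.image fun V => V.map (Submodule.span ℝ {d}).mkQ) (by omega) (by
          intro V hV
          obtain ⟨V', hV', rfl⟩ := Finset.mem_image.1 hV
          exact (Submodule.finrank_map_le _ _).trans (hS V' hV'))
      refine ⟨L.comp (Submodule.span ℝ {d}).mkQ, ?_⟩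
      intro V hV x hx hLx
      have h1 := hL _ (Finset.mem_image_of_mem _ hV) _ (Submodule.mem_map_of_mem hx) hLx
      rw [Submodule.mkQ_apply, Submodule.Quotient.mk_eq_zero, Submodule.mem_span_singleton] at h1
      obtain ⟨c, hc⟩ := h1
      by_cases hc0 : c = 0
      · rw [← hc, hc0, zero_smul]
      · exfalso
        refine hd' V (Finset.mem_insert_of_mem hV) ?_
        have : d = c⁻¹ • x := by rw [← hc, smul_smul, inv_mul_cancel₀ hc0, one_smul]
        rw [this]
        exact V.smul_mem _ hx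

theorem pf_PRJ : T_PRJ := by
  intro E _ _ _ S hS
  obtain ⟨L, hL⟩ := prj_lin (Module.finrank ℝ E) E S (by omega) hS
  let e : (Fin 5 → ℝ) ≃ₗ[ℝ] EuclideanSpace ℝ (Fin 5) := (WithLp.linearEquiv 2 ℝ (Fin 5 → ℝ)).symm
  refine ⟨LinearMap.toContinuousLinearMap (e.toLinearMap.comp L), ?_⟩
  intro V hV x hx h
  refine hL V hV x hx ?_
  have h2 : e (L x) = 0 := h
  exact (LinearEquiv.map_eq_zero_iff e).1 h2

end Pool.Agent.H61.PMF
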